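import Pool.Agent.Hhelper18.Pan.Final
import Pool.Agent.Hhelper18.Pan.Aut
import Pool.Agent.Hhelper18.Pan.Orders

/-!
# MP_f4b6e3_co : stabilizer sizes of Hamiltonian cycles in pancake graphs

For every `n ≥ 5` the set `Σ_n` of the sizes of the stabilizers, in the automorphism group of the
pancake graph, of the Hamiltonian cycles of the pancake graph is
`{ord g : g ∈ S_n} ∪ {2 ord g : g ∈ S_n}`.
-/

namespace Pool.Agent.Results.MP_f4b6e3_co.StabSizes

/-- The prefix reversal `r_k` in `S_n` (`k ≤ n`), on the positions `0, …, n-1`: it sends `i` to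
`k - 1 - i` if `i < k` and fixes the other positions. -/
def prefixRev (n k : ℕ) : Equiv.Perm (Fin n) where
  toFun i := if h : (i : ℕ) < k then
      if h' : k ≤ n then ⟨k - 1 - i, by omega⟩ else i
    else i
  invFun i := if h : (i : ℕ) < k then
      if h' : k ≤ n then ⟨k - 1 - i, by omega⟩ else i
    else i
  left_inv i := by
    by_cases h : (i : ℕ) < k
    · by_cases h' : k ≤ n
      · have h'' : k - 1 - (i : ℕ) < k := by omega
        simp only [h, h', dite_true, h'']
        ext; simp; omega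
      · simp [h, h']
    · simp [h]
  right_inv i := by
    by_cases h : (i : ℕ) < k
    · by_cases h' : k ≤ n
      · have h'' : k - 1 - (i : ℕ) < k := by omega
        simp only [h, h', dite_true, h'']
        ext; simp; omega
      · simp [h, h']
    · simp [h]

/-- The pancake graph: `g` and `h` in `S_n` are adjacent when `h = g r_k` for some `2 ≤ k ≤ n`. -/
def pancake (n : ℕ) : SimpleGraph (Equiv.Perm (Fin n)) :=
  SimpleGraph.fromRel fun g h => ∃ k, 2 ≤ k ∧ k ≤ n ∧ h = g * prefixRev n k

/-- `C` is the set of edges of a Hamiltonian cycle of the pancake graph. -/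
def IsHamCycle (n : ℕ) (C : Set (Sym2 (Equiv.Perm (Fin n)))) : Prop :=
  ∃ (g : Equiv.Perm (Fin n)) (p : (pancake n).Walk g g), p.IsHamiltonianCycle ∧
    C = {e | e ∈ p.edges}

/-- The stabilizer of the edge set `C` in the automorphism group of the pancake graph. -/
def autStab (n : ℕ) (C : Set (Sym2 (Equiv.Perm (Fin n)))) : Type :=
  {φ : pancake n ≃g pancake n // Sym2.map φ '' C = C}

/-- The stabilizer of the edge set `C` in the group of left translations `g ↦ σ g`. -/
def leftStab (n : ℕ) (C : Set (Sym2 (Equiv.Perm (Fin n)))) : Type :=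
  {σ : Equiv.Perm (Fin n) // Sym2.map (σ * ·) '' C = C}

/-- The set `Σ_n` of the problem. -/
def Sigma (n : ℕ) : Set ℕ := {s | ∃ C, IsHamCycle n C ∧ s = Nat.card (autStab n C)}

/-- The set of the sizes of the stabilizers in the group of left translations. -/
def SigmaL (n : ℕ) : Set ℕ := {s | ∃ C, IsHamCycle n C ∧ s = Nat.card (leftStab n C)}

theorem sigma_def (n : ℕ) : Sigma n = Pan.Sigma n := rfl

theorem sigmaL_def (n : ℕ) : SigmaL n = Pan.SigmaL n := rfl

/-- **The answer to Q1.**  For every `n ≥ 5`, `Σ_n = {ord g : g ∈ S_n} ∪ {2 ord g : g ∈ S_n}`; in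
arithmetic form, `Σ_n` is the set of the numbers `c` and `2 c`, where `c ≥ 1` is such that the
maximal prime powers dividing `c` have sum at most `n`.  The stabilizers in the group of left
translations give the same set. -/
theorem result (n : ℕ) (hn : 5 ≤ n) :
    Sigma n = {s | ∃ g : Equiv.Perm (Fin n), s = orderOf g ∨ s = 2 * orderOf g} ∧
    Sigma n = {s | ∃ c : ℕ, c ≠ 0 ∧ ∑ p ∈ c.primeFactors, p ^ c.factorization p ≤ n ∧
      (s = c ∨ s = 2 * c)} ∧
    SigmaL n = Sigma n := by
  have h1 : Sigma n = {s | ∃ g : Equiv.Perm (Fin n), s = orderOf g ∨ s = 2 * orderOf g} := by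
    rw [sigma_def, Pan.sigma_eq n hn, Pan.sigmaL_eq n hn]
  refine ⟨h1, ?_, ?_⟩
  · rw [h1]
    ext s
    constructor
    · rintro ⟨g, hg⟩
      obtain ⟨h2, h3⟩ := (Pan.orders_iff n (orderOf g)).1 ⟨g, rfl⟩
      exact ⟨orderOf g, h2, h3, hg⟩
    · rintro ⟨c, h2, h3, hs⟩
      obtain ⟨g, rfl⟩ := (Pan.orders_iff n c).2 ⟨h2, h3⟩
      exact ⟨g, hs⟩
  · rw [sigma_def, sigmaL_def, Pan.sigma_eq n hn]

end Pool.Agent.Results.MP_f4b6e3_co.StabSizes
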